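import Mathlib

open Set Metric Filter Topology MeasureTheory
open scoped ENNReal

namespace Pool.Agent.Results.MP_8e2100_an.Counter

/-- Lempert function of `Ω`. -/
noncomputable def lempert (Ω : Set (ℂ × ℂ)) (z w : ℂ × ℂ) : ℝ≥0∞ :=
  ⨅ (f : ℂ → ℂ × ℂ) (_ : DifferentiableOn ℂ f (ball 0 1)) (_ : MapsTo f (ball 0 1) Ω) (ζ : ℂ)
    (_ : ‖ζ‖ < 1) (_ : f 0 = z) (_ : f ζ = w), ENNReal.ofReal (Real.artanh ‖ζ‖)

/-- Kobayashi distance of `Ω` (chains of analytic discs). -/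
noncomputable def kob (Ω : Set (ℂ × ℂ)) (z w : ℂ × ℂ) : ℝ≥0∞ :=
  ⨅ (n : ℕ) (x : ℕ → ℂ × ℂ) (_ : x 0 = z) (_ : x (n + 1) = w),
    ∑ i ∈ Finset.range (n + 1), lempert Ω (x i) (x (i + 1))

/-- Kobayashi ball. -/
def kball (Ω : Set (ℂ × ℂ)) (z : ℂ × ℂ) (r : ℝ) : Set (ℂ × ℂ) :=
  {w ∈ Ω | kob Ω z w < ENNReal.ofReal r}

lemma logf {g : ℂ → ℂ} (hg : DifferentiableOn ℂ g (ball 0 1)) (h : ∀ z ∈ ball (0 : ℂ) 1, g z ≠ 0) :
    ∃ L : ℂ → ℂ, DifferentiableOn ℂ L (ball 0 1) ∧ ∀ z ∈ ball (0 : ℂ) 1, Complex.exp (L z) = g z := by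
  obtain ⟨L, h0, h1⟩ := ((hg.deriv isOpen_ball).div hg h).isExactOn_ball.with_val_at 0
    (Complex.log (g 0))
  have h2 : ∀ z ∈ ball (0 : ℂ) 1, HasDerivAt (fun z => Complex.exp (L z) / g z) 0 z := fun z hz => by
    refine ((h1 z hz).cexp.div (hg.differentiableAt (isOpen_ball.mem_nhds hz)).hasDerivAt
      (h z hz)).congr_deriv ?_
    simp only [Pi.div_apply]
    field_simp [h z hz]
    ring
  refine ⟨L, fun z hz => (h1 z hz).differentiableAt.differentiableWithinAt, fun z hz => ?_⟩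
  have h3 := isOpen_ball.is_const_of_deriv_eq_zero (convex_ball 0 1).isPreconnected
    (fun z hz => (h2 z hz).differentiableAt.differentiableWithinAt) (fun z hz => (h2 z hz).deriv)
    hz (mem_ball_self one_pos)
  rwa [h0, Complex.exp_log (h 0 (mem_ball_self one_pos)), div_self (h 0 (mem_ball_self one_pos)),
    div_eq_one_iff_eq (h z hz)] at h3

lemma art {t : ℝ} (h0 : 0 ≤ t) (h1 : t < 1) :
    2 * Real.artanh t = Real.log (1 + t) - Real.log (1 - t) := by
  rw [Real.artanh_eq_half_log ⟨by linarith, h1.le⟩, Real.log_div (by linarith) (by linarith)]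
  ring

lemma harnack {h : ℂ → ℂ} (hd : DifferentiableOn ℂ h (ball 0 1))
    (hp : ∀ z ∈ ball (0 : ℂ) 1, 0 < (h z).re) {ζ : ℂ} (hζ : ‖ζ‖ < 1) :
    |Real.log (h 0).re - Real.log (h ζ).re| ≤ 2 * Real.artanh ‖ζ‖ := by
  have hx := hp 0 (mem_ball_self one_pos)
  have ha := hp ζ (mem_ball_zero_iff.2 hζ)
  have ne : ∀ z ∈ ball (0 : ℂ) 1, h z + (starRingEnd ℂ) (h 0) ≠ 0 := fun z hz e => by
    have := congrArg Complex.re e
    simp at this
    linarith [hp z hz]
  have k := Complex.norm_le_norm_of_mapsTo_ball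
    (f := fun z => (h z - h 0) / (h z + (starRingEnd ℂ) (h 0))) (R := 1)
    ((hd.sub_const _).div (hd.add_const _) ne) (fun z hz => by
      rw [mem_closedBall_zero_iff, norm_div]
      refine div_le_one_of_le₀ ?_ (norm_nonneg _)
      rw [← sq_le_sq₀ (norm_nonneg _) (norm_nonneg _), Complex.sq_norm, Complex.sq_norm]
      simp [Complex.normSq_apply]
      nlinarith [hp z hz]) (by simp) hζ
  rw [norm_div, div_le_iff₀ (norm_pos_iff.2 (ne ζ (mem_ball_zero_iff.2 hζ))),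
    ← sq_le_sq₀ (norm_nonneg _) (by positivity), mul_pow, Complex.sq_norm (_ - _),
    Complex.sq_norm (_ + _)] at k
  simp only [Complex.normSq_apply, Complex.sub_re, Complex.sub_im, Complex.add_re, Complex.add_im,
    Complex.conj_re, Complex.conj_im] at k
  have t0 := norm_nonneg ζ
  set t := ‖ζ‖
  set x := (h 0).re
  set a := (h ζ).re
  have k2 : (a - x) ^ 2 ≤ (t * (a + x)) ^ 2 := by
    have : t ^ 2 ≤ 1 := by nlinarith
    nlinarith [mul_self_nonneg ((h ζ).im - (h 0).im)]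
  have k3 := abs_le.1 (abs_le_of_sq_le_sq' k2 (by positivity) |> fun h => abs_le.2 h)
  rw [art t0 hζ, abs_le]
  have l1 := Real.log_le_log (by have : 0 < 1 - t := by linarith
                                 positivity) (show a * (1 - t) ≤ x * (1 + t) by nlinarith)
  have l2 := Real.log_le_log (by have : 0 < 1 - t := by linarith
                                 positivity) (show x * (1 - t) ≤ a * (1 + t) by nlinarith)
  rw [Real.log_mul ha.ne' (by linarith), Real.log_mul hx.ne' (by linarith)] at l1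
  rw [Real.log_mul hx.ne' (by linarith), Real.log_mul ha.ne' (by linarith)] at l2
  constructor <;> linarith

def Ω (N : ℕ) : Set (ℂ × ℂ) := {q | 0 < ‖q.1‖ ∧ ‖q.1‖ < 1 ∧ ‖q.2‖ < ‖q.1‖ ^ N}

lemma Ω_ball (N) : Ω N ⊆ ball 0 1 := fun q hq => by
  rw [mem_ball_zero_iff, Prod.norm_def]
  exact max_lt hq.2.1 (hq.2.2.trans_le (pow_le_one₀ (norm_nonneg _) hq.2.1.le))

lemma quo {N q} (hq : q ∈ Ω N) : ‖q.2 / q.1 ^ N‖ < 1 := by
  rw [norm_div, norm_pow, div_lt_one (pow_pos hq.1 N)]; exact hq.2.2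

noncomputable def L (N : ℕ) (q : ℂ × ℂ) : (ℂ × ℂ) × ℝ × ℝ :=
  (q, Real.log (-Real.log ‖q.1‖), Real.log (1 - ‖q.2 / q.1 ^ N‖))

lemma disc_lip {N} {f : ℂ → ℂ × ℂ} (hd : DifferentiableOn ℂ f (ball 0 1))
    (hm : MapsTo f (ball 0 1) (Ω N)) {ζ : ℂ} (hζ : ‖ζ‖ < 1) :
    dist (L N (f 0)) (L N (f ζ)) ≤ 4 * Real.artanh ‖ζ‖ := by
  have m0 : (0 : ℂ) ∈ ball (0 : ℂ) 1 := mem_ball_self one_pos
  have mζ := mem_ball_zero_iff.2 hζ
  have a0 := Real.artanh_nonneg (norm_nonneg ζ)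
  have ne : ∀ z ∈ ball (0 : ℂ) 1, (f z).1 ≠ 0 := fun z hz => norm_pos_iff.1 (hm hz).1
  refine max_le ?_ (max_le ?_ ?_)
  · have := Complex.dist_le_div_mul_dist_of_mapsTo_ball (R₂ := 2) hd (fun z hz => by
      have := dist_triangle_right (f z) (f 0) 0
      have := mem_ball.1 (Ω_ball N (hm hz))
      have := mem_ball.1 (Ω_ball N (hm m0))
      rw [mem_closedBall]; linarith) mζ
    rw [dist_comm, dist_zero_right] at this
    have h1 := art (norm_nonneg ζ) hζ
    have h2 := Real.log_nonneg (show 1 ≤ 1 + ‖ζ‖ by linarith [norm_nonneg ζ])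
    have h3 := Real.log_le_sub_one_of_pos (show 0 < 1 - ‖ζ‖ by linarith)
    show dist (f 0) (f ζ) ≤ _
    linarith
  · obtain ⟨l, h1, h2⟩ := logf hd.fst ne
    have e : ∀ z ∈ ball (0 : ℂ) 1, (-l z).re = -Real.log ‖(f z).1‖ := fun z hz => by
      rw [← h2 z hz, Complex.norm_exp, Real.log_exp]; rfl
    have := harnack (h := fun z => -l z) h1.neg (fun z hz => by
      rw [e z hz]; exact neg_pos.2 (Real.log_neg (hm hz).1 (hm hz).2.1)) hζ
    rw [e 0 m0, e ζ mζ] at this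
    exact this.trans (by linarith)
  · set g := fun z => (f z).2 / (f z).1 ^ N
    have hg : DifferentiableOn ℂ g (ball 0 1) :=
      hd.snd.div (hd.fst.pow N) fun z hz => pow_ne_zero N (ne z hz)
    have b : ∀ u : ℂ, ‖u‖ = 1 → ∀ z ∈ ball (0 : ℂ) 1, 1 - ‖g z‖ ≤ (1 - u * g z).re := fun u hu z _ => by
      have := Complex.re_le_norm (u * g z)
      rw [norm_mul, hu, one_mul] at this
      simp only [Complex.sub_re, Complex.one_re]; linarith
    have b0 : ∀ z ∈ ball (0 : ℂ) 1, 0 < 1 - ‖g z‖ := fun z hz => sub_pos.2 (quo (hm hz))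
    have H : ∀ u : ℂ, ‖u‖ = 1 → _ := fun u hu => abs_le.1 (harnack (h := fun z => 1 - u * g z)
      ((hg.const_mul u).const_sub 1) (fun z hz => (b0 z hz).trans_le (b u hu z hz)) hζ)
    obtain ⟨u, hu, e1⟩ := Complex.exists_norm_eq_mul_self (g 0)
    obtain ⟨v, hv, e2⟩ := Complex.exists_norm_eq_mul_self (g ζ)
    have h1 := (H u hu).1
    have h2 := (H v hv).2
    have h3 := Real.log_le_log (b0 ζ mζ) (b u hu ζ mζ)
    have h4 := Real.log_le_log (b0 0 m0) (b v hv 0 m0)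
    simp only [← e1, ← e2, Complex.sub_re, Complex.one_re, Complex.ofReal_re] at h1 h2 h3 h4
    show |Real.log (1 - ‖g 0‖) - Real.log (1 - ‖g ζ‖)| ≤ _
    rw [abs_le]; constructor <;> linarith

lemma kob_lip (N z w) : edist (L N z) (L N w) ≤ 4 * kob (Ω N) z w := by
  have k : ∀ z w, edist (L N z) (L N w) / 4 ≤ lempert (Ω N) z w := fun z w => by
    simp only [lempert, le_iInf_iff]
    rintro f hd hm ζ hζ rfl rfl
    rw [ENNReal.div_le_iff (by simp) (by simp), edist_dist, mul_comm, ← ENNReal.ofReal_ofNat,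
      ← ENNReal.ofReal_mul (by norm_num)]
    exact ENNReal.ofReal_le_ofReal (disc_lip hd hm hζ)
  rw [mul_comm, ← ENNReal.div_le_iff (by simp) (by simp)]
  simp only [kob, le_iInf_iff]
  rintro n x rfl rfl
  refine le_trans ?_ (Finset.sum_le_sum fun i _ => k _ _)
  simp only [div_eq_mul_inv, ← Finset.sum_mul]
  gcongr
  exact edist_le_range_sum_edist (fun i => L N (x i)) (n + 1)

lemma kob_le {S : Set (ℂ × ℂ)} {f : ℂ → ℂ × ℂ} (hd : DifferentiableOn ℂ f (ball 0 1))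
    (hm : MapsTo f (ball 0 1) S) {ζ : ℂ} (hζ : ‖ζ‖ < 1) :
    kob S (f 0) (f ζ) ≤ ENNReal.ofReal (Real.artanh ‖ζ‖) := by
  refine iInf_le_of_le 0 (iInf_le_of_le (fun i => if i = 0 then f 0 else f ζ)
    (iInf_le_of_le (by simp) (iInf_le_of_le (by simp) ?_)))
  simp only [zero_add, Finset.range_one, Finset.sum_singleton, if_true, one_ne_zero, if_false]
  exact iInf_le_of_le f (iInf_le_of_le hd (iInf_le_of_le hm (iInf_le_of_le ζ (iInf_le_of_le hζ
    (iInf_le_of_le rfl (iInf_le_of_le rfl le_rfl))))))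

lemma Ω_open (N) : IsOpen (Ω N) := by
  refine IsOpen.and ?_ (IsOpen.and ?_ ?_) <;> exact isOpen_lt (by fun_prop) (by fun_prop)

lemma mem_exp (N) {s u : ℂ} (hs : s.re < 0) (hu : ‖u‖ < 1) :
    (Complex.exp s, u * Complex.exp s ^ N) ∈ Ω N := by
  have h : 0 < ‖Complex.exp s‖ := norm_pos_iff.2 (Complex.exp_ne_zero s)
  refine ⟨h, by rw [Complex.norm_exp]; exact Real.exp_lt_one_iff.2 hs, ?_⟩
  simp only [norm_mul, norm_pow]
  exact mul_lt_of_lt_one_left (pow_pos h N) hu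

lemma Ω_conn (N) : IsConnected (Ω N) := by
  have : Ω N = (fun x : ℂ × ℂ => (Complex.exp x.1, x.2 * Complex.exp x.1 ^ N)) ''
      ({s | s.re < 0} ×ˢ ball 0 1) := by
    ext q
    constructor
    · intro hq
      have h := norm_pos_iff.1 hq.1
      refine ⟨(Complex.log q.1, q.2 / q.1 ^ N), ⟨?_, mem_ball_zero_iff.2 (quo hq)⟩, ?_⟩
      · show (Complex.log q.1).re < 0
        rw [Complex.log_re]; exact Real.log_neg hq.1 hq.2.1
      · simp [Complex.exp_log h, h]
    · rintro ⟨x, hx, rfl⟩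
      exact mem_exp N hx.1 (mem_ball_zero_iff.1 hx.2)
  rw [this]
  exact (((convex_halfSpace_re_lt 0).prod (convex_ball 0 1)).isConnected
    ⟨(-1, 0), by simp⟩).image _ (by fun_prop)

lemma complete (N) (x : ℕ → ℂ × ℂ) (hx : ∀ n, x n ∈ Ω N)
    (hc : ∀ ε > 0, ∃ M, ∀ m ≥ M, ∀ n ≥ M, kob (Ω N) (x m) (x n) < ε) :
    ∃ y ∈ Ω N, Tendsto (fun n => kob (Ω N) (x n) y) atTop (𝓝 0) := by
  have h1 : CauchySeq fun n => L N (x n) := EMetric.cauchySeq_iff.2 fun ε hε => by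
    obtain ⟨M, hM⟩ := hc (ε / 4) (ENNReal.div_pos hε.ne' (by simp))
    refine ⟨M, fun m hm n hn => (kob_lip N _ _).trans_lt ?_⟩
    rw [mul_comm]
    exact ENNReal.mul_lt_of_lt_div (hM m hm n hn)
  obtain ⟨⟨y, a, b⟩, h2⟩ := cauchySeq_tendsto_of_complete h1
  have hy : Tendsto x atTop (𝓝 y) := h2.fst_nhds
  have ha : ‖y.1‖ = Real.exp (-Real.exp a) := by
    refine tendsto_nhds_unique hy.fst_nhds.norm (h2.snd_nhds.fst_nhds.rexp.neg.rexp.congr fun n => ?_)
    simp only [L]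
    rw [Real.exp_log (neg_pos.2 (Real.log_neg (hx n).1 (hx n).2.1)), neg_neg, Real.exp_log (hx n).1]
  have y0 : 0 < ‖y.1‖ := ha ▸ Real.exp_pos _
  have hb : 1 - ‖y.2 / y.1 ^ N‖ = Real.exp b := by
    refine tendsto_nhds_unique ((hy.snd_nhds.div (hy.fst_nhds.pow N)
      (pow_ne_zero N (norm_pos_iff.1 y0))).norm.const_sub 1)
      (h2.snd_nhds.snd_nhds.rexp.congr fun n => ?_)
    exact Real.exp_log (sub_pos.2 (quo (hx n)))
  have hm : y ∈ Ω N := by
    refine ⟨y0, ha ▸ Real.exp_lt_one_iff.2 (neg_neg_of_pos (Real.exp_pos a)), ?_⟩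
    rw [← div_lt_one (pow_pos y0 N), ← norm_pow, ← norm_div]
    linarith [Real.exp_pos b]
  refine ⟨y, hm, ?_⟩
  obtain ⟨ρ, hρ, hs⟩ := Metric.isOpen_iff.1 (Ω_open N) y hm
  have t1 : Tendsto (fun n => ‖y - x n‖ / (ρ / 2)) atTop (𝓝 0) := by
    simpa using ((hy.const_sub y).norm).div_const (ρ / 2)
  have t2 : ContinuousAt Real.artanh 0 := by
    unfold Real.artanh
    refine ContinuousAt.log (ContinuousAt.sqrt (ContinuousAt.div ?_ ?_ ?_)) ?_ <;>
      first | fun_prop | simp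
  have t3 := ENNReal.tendsto_ofReal (t2.tendsto.comp t1)
  rw [Real.artanh_zero, ENNReal.ofReal_zero] at t3
  refine tendsto_of_tendsto_of_tendsto_of_le_of_le' tendsto_const_nhds t3
    (Eventually.of_forall fun _ => zero_le) ?_
  filter_upwards [t1.eventually (gt_mem_nhds one_pos)] with n hn
  set d := ‖y - x n‖ / (ρ / 2) with hd
  have d0 : 0 ≤ d := by positivity
  have hd1 : ‖y - x n‖ < ρ / 2 := by rwa [hd, div_lt_one (by positivity)] at hn
  have nd : ‖(d : ℂ)‖ = d := by simp [abs_of_nonneg d0]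
  have := kob_le (S := Ω N) (f := fun ζ => x n + (ζ / d) • (y - x n)) (by fun_prop)
    (fun ζ hζ => hs (by
      have h3 : ‖(ζ / d) • (y - x n)‖ ≤ ρ / 2 := by
        rw [norm_smul, norm_div, nd]
        rcases d0.eq_or_lt with h | h
        · rw [← h]; simp; positivity
        · have : ‖y - x n‖ = d * (ρ / 2) := by rw [hd]; field_simp
          rw [this]; field_simp; exact (mem_ball_zero_iff.1 hζ).le
      have h4 := norm_sub_le ((ζ / d) • (y - x n)) (y - x n)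
      rw [mem_ball_iff_norm, show x n + (ζ / d) • (y - x n) - y = (ζ / d) • (y - x n) - (y - x n) by
        abel]
      linarith)) (ζ := d) (by rwa [nd])
  have e : x n + ((d : ℂ) / d) • (y - x n) = y := by
    rcases d0.eq_or_lt with h | h
    · have : ‖y - x n‖ = 0 := by
        have := h.symm; rw [hd, div_eq_zero_iff] at this; exact this.resolve_right (by positivity)
      rw [norm_eq_zero.1 this, smul_zero, add_zero, (sub_eq_zero.1 (norm_eq_zero.1 this))]
    · rw [div_self (by exact_mod_cast h.ne')]; simp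
  simp only [e, nd, zero_div, zero_smul, add_zero] at this
  exact this

lemma sub_ball (N) {r δ T : ℝ} (hr : Real.artanh δ < r) (d0 : 0 < δ) (d1 : δ < 1)
    (hT : 10 ≤ T * δ) :
    (closedBall 0 (Real.exp (-T * (1 - δ / 2))) \ ball 0 (Real.exp (-T * (1 - δ / 2)) / 2)) ×ˢ
      ball 0 (δ * (Real.exp (-T * (1 - δ / 2)) / 2) ^ N) ⊆
      kball (Ω N) (Complex.exp (-T), 0) r := by
  set R := Real.exp (-T * (1 - δ / 2)) with hR
  have R0 : 0 < R := Real.exp_pos _
  have T0 : 0 < T := by nlinarith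
  rintro ⟨z, w⟩ ⟨⟨h1, h2⟩, h3⟩
  simp only [mem_closedBall_zero_iff, mem_ball_zero_iff, not_lt] at h1 h2 h3
  have z0 : 0 < ‖z‖ := by linarith
  have z1 := norm_pos_iff.1 z0
  set η := -Complex.log z / T - 1 with hη
  have e1 : η.re = -Real.log ‖z‖ / T - 1 := by simp [hη, Complex.log_re]
  have e2 : η.im = -z.arg / T := by simp [hη, Complex.log_im]
  have l1 : Real.log ‖z‖ ≤ -T * (1 - δ / 2) := (Real.log_le_iff_le_exp z0).2 h1
  have l2 : -T * (1 - δ / 2) - 1 ≤ Real.log ‖z‖ := by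
    have := Real.log_le_log (by positivity) h2
    rw [Real.log_div R0.ne' two_ne_zero, hR, Real.log_exp] at this
    linarith [Real.log_two_lt_d9]
  have hη1 : ‖η‖ ≤ δ := by
    have a1 : |η.re| ≤ δ / 2 := by
      rw [e1, abs_le]
      constructor
      · rw [le_sub_iff_add_le, le_div_iff₀ T0]; linarith
      · rw [sub_le_iff_le_add, div_le_iff₀ T0]; linarith
    have a2 : |η.im| ≤ δ / 2 := by
      rw [e2, abs_div, abs_neg, abs_of_pos T0, div_le_iff₀ T0]
      linarith [Complex.abs_arg_le_pi z, Real.pi_le_four]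
    linarith [Complex.norm_le_abs_re_add_abs_im η]
  set u := w / z ^ N with hu
  have hu1 : ‖u‖ ≤ δ := by
    rw [hu, norm_div, norm_pow, div_le_iff₀ (pow_pos z0 N)]
    exact h3.le.trans (by gcongr)
  have nd : ‖(δ : ℂ)‖ = δ := by simp [abs_of_pos d0]
  have dne : (δ : ℂ) ≠ 0 := by exact_mod_cast d0.ne'
  have sm : ∀ v ζ : ℂ, ‖v‖ ≤ δ → ζ ∈ ball (0 : ℂ) 1 → ‖ζ * (v / δ)‖ < 1 := fun v ζ hv hζ => by
    rw [norm_mul, norm_div, nd]
    exact (mul_le_of_le_one_right (norm_nonneg _) (div_le_one_of_le₀ hv d0.le)).trans_lt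
      (mem_ball_zero_iff.1 hζ)
  set f : ℂ → ℂ × ℂ := fun ζ => (Complex.exp (-T * (1 + ζ * (η / δ))),
    ζ * (u / δ) * Complex.exp (-T * (1 + ζ * (η / δ))) ^ N) with hf
  have hm : MapsTo f (ball 0 1) (Ω N) := fun ζ hζ => mem_exp N (by
    have := (abs_lt.1 ((Complex.abs_re_le_norm _).trans_lt (sm η ζ hη1 hζ))).1
    generalize ζ * (η / δ) = v at this
    simp; nlinarith) (sm u ζ hu1 hζ)
  have f0 : f 0 = (Complex.exp (-T), 0) := by simp [hf]
  have f1 : f δ = (z, w) := by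
    have : -T * (1 + δ * (η / δ)) = Complex.log z := by
      have : (T : ℂ) ≠ 0 := by exact_mod_cast T0.ne'
      rw [hη]; field_simp; ring
    simp only [hf, this, Complex.exp_log z1, hu]
    congr 1
    field_simp
  have := kob_le (f := f) (by simp only [hf]; fun_prop) hm (ζ := δ) (by rwa [nd])
  rw [f0, f1, nd] at this
  exact ⟨f1 ▸ hm (by rwa [mem_ball_zero_iff, nd]), this.trans_lt
    ((ENNReal.ofReal_lt_ofReal_iff ((Real.artanh_nonneg d0.le).trans_lt hr)).2 hr)⟩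

lemma inner (N : ℕ) {p R : ℝ} (hp : 0 ≤ p) (hN : p ≤ 2 * N) (R0 : 0 < R) :
    ∫⁻ q in {q : ℂ × ℂ | ‖q.1‖ ≤ R} ∩ Ω N, ‖q.1⁻¹‖ₑ ^ p ≤
      ENNReal.ofReal (R ^ (-p) * (Real.pi ^ 2 * R ^ (2 * N + 2))) := by
  have hm : MeasurableSet ({q : ℂ × ℂ | ‖q.1‖ ≤ R} ∩ Ω N) :=
    (isClosed_le (by fun_prop) continuous_const).measurableSet.inter (Ω_open N).measurableSet
  rw [← lintegral_indicator hm, Measure.volume_eq_prod,
    lintegral_prod _ (Measurable.indicator (by fun_prop) hm).aemeasurable]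
  have k : ∀ z : ℂ, ∫⁻ w, ({q : ℂ × ℂ | ‖q.1‖ ≤ R} ∩ Ω N).indicator (fun q => ‖q.1⁻¹‖ₑ ^ p) (z, w) ≤
      (closedBall (0 : ℂ) R).indicator (fun _ => ENNReal.ofReal (R ^ (-p) * (Real.pi * R ^ (2 * N))))
        z := fun z => by
    by_cases hz : 0 < ‖z‖ ∧ ‖z‖ ≤ R
    · rw [indicator_of_mem (mem_closedBall_zero_iff.2 hz.2)]
      refine le_trans (lintegral_mono (g := (ball (0 : ℂ) (‖z‖ ^ N)).indicator fun _ => ‖z⁻¹‖ₑ ^ p)
        fun w => ?_) ?_
      · by_cases h : (z, w) ∈ {q : ℂ × ℂ | ‖q.1‖ ≤ R} ∩ Ω N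
        · rw [indicator_of_mem h, indicator_of_mem (mem_ball_zero_iff.2 h.2.2.2)]
        · rw [indicator_of_notMem h]; exact zero_le
      · rw [lintegral_indicator_const measurableSet_ball, Complex.volume_ball, ← ofReal_norm,
          ENNReal.ofReal_rpow_of_nonneg (norm_nonneg _) hp, ← ENNReal.ofReal_pow (by positivity),
          ← ENNReal.ofReal_coe_nnreal, ← ENNReal.ofReal_mul (by positivity),
          ← ENNReal.ofReal_mul (by positivity)]
        refine ENNReal.ofReal_le_ofReal ?_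
        have e : ∀ x : ℝ, 0 < x → x ^ (-p) * x ^ (2 * N) = x ^ (2 * N - p) := fun x hx => by
          rw [Real.rpow_sub hx, Real.rpow_neg hx.le, ← Real.rpow_natCast]; push_cast; ring
        have := Real.rpow_le_rpow hz.1.le hz.2 (sub_nonneg.2 hN)
        rw [← e _ hz.1, ← e _ R0] at this
        rw [norm_inv, Real.inv_rpow hz.1.le, ← Real.rpow_neg hz.1.le, NNReal.coe_real_pi, ← pow_mul,
          mul_comm N 2]
        nlinarith [Real.pi_pos]
    · refine le_trans (le_of_eq ?_) (zero_le (α := ℝ≥0∞))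
      rw [← lintegral_zero (μ := (volume : Measure ℂ))]
      congr 1
      ext w
      exact indicator_of_notMem (fun h => hz ⟨h.2.1, h.1⟩) _
  refine (lintegral_mono k).trans ?_
  rw [lintegral_indicator_const measurableSet_closedBall, Complex.volume_closedBall,
    ← ENNReal.ofReal_pow R0.le, ← ENNReal.ofReal_coe_nnreal, ← ENNReal.ofReal_mul (by positivity),
    ← ENNReal.ofReal_mul (by positivity), NNReal.coe_real_pi]
  exact le_of_eq (by congr 1; ring)

lemma vol {R ρ : ℝ} (R0 : 0 < R) (h0 : 0 < ρ) :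
    ENNReal.ofReal (Real.pi ^ 2 * R ^ 2 / 2 * ρ ^ 2) ≤
      volume ((closedBall (0 : ℂ) R \ ball 0 (R / 2)) ×ˢ ball (0 : ℂ) ρ) := by
  rw [Measure.volume_eq_prod, Measure.prod_prod]
  refine le_trans ?_ (mul_le_mul_left le_measure_sdiff _)
  rw [Complex.volume_closedBall, Complex.volume_ball, Complex.volume_ball,
    ← ENNReal.ofReal_pow R0.le, ← ENNReal.ofReal_pow h0.le, ← ENNReal.ofReal_pow (by positivity),
    ← ENNReal.ofReal_coe_nnreal, ← ENNReal.ofReal_mul (by positivity),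
    ← ENNReal.ofReal_mul (by positivity), ← ENNReal.ofReal_mul (by positivity),
    ← ENNReal.ofReal_sub _ (by positivity), NNReal.coe_real_pi, ← ENNReal.ofReal_mul (by
      nlinarith [Real.pi_pos, mul_pos Real.pi_pos (pow_pos R0 2)])]
  refine ENNReal.ofReal_le_ofReal ?_
  have : 0 < Real.pi ^ 2 * R ^ 2 * ρ ^ 2 := by positivity
  nlinarith

theorem result (p : ℝ) (hp : 0 < p) : ∃ Ω : Set (ℂ × ℂ),
    IsOpen Ω ∧ IsConnected Ω ∧ Bornology.IsBounded Ω ∧
    (∀ x : ℕ → ℂ × ℂ, (∀ n, x n ∈ Ω) → (∀ ε > 0, ∃ M, ∀ m ≥ M, ∀ n ≥ M, kob Ω (x m) (x n) < ε) →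
      ∃ y ∈ Ω, Tendsto (fun n => kob Ω (x n) y) atTop (𝓝 0)) ∧
    ∃ f : ℂ × ℂ → ℂ, DifferentiableOn ℂ f Ω ∧ ∀ r > (0 : ℝ), ∀ C > (0 : ℝ), ∃ z ∈ Ω,
      0 < volume (kball Ω z r) ∧ volume (kball Ω z r) < ⊤ ∧
      ENNReal.ofReal C / volume (kball Ω z r) * ∫⁻ w in kball Ω z r, ‖f w‖ₑ ^ p < ‖f z‖ₑ ^ p := by
  obtain ⟨N, hN⟩ := exists_nat_ge p
  refine ⟨Ω N, Ω_open N, Ω_conn N, isBounded_ball.subset (Ω_ball N), complete N, fun q => q.1⁻¹,
    differentiableOn_fst.inv fun q hq => norm_pos_iff.1 hq.1, fun r hr C hC => ?_⟩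
  set δ := Real.tanh (r / 2) with hδ
  have d1 : δ < 1 := Real.tanh_lt_one _
  have da : Real.artanh δ = r / 2 := Real.artanh_tanh _
  have d0 : 0 < δ := by
    by_contra h
    linarith [Real.artanh_nonpos (not_lt.1 h)]
  set K : ℝ := 2 * 4 ^ N / δ ^ 2 with hK
  have K0 : 0 < K := by positivity
  set T := 10 / δ + 2 * (C * (1 + K)) / (p * δ) with hT
  have T1 : 10 ≤ T * δ := by
    rw [hT, add_mul, div_mul_cancel₀ _ d0.ne']
    exact le_add_of_nonneg_right (by positivity)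
  have T0 : 0 < T := by positivity
  have hs := sub_ball N (r := r) (by linarith) d0 d1 T1
  set R := Real.exp (-T * (1 - δ / 2)) with hR
  have R0 : 0 < R := Real.exp_pos _
  set z : ℂ × ℂ := (Complex.exp (-T), 0)
  set B := kball (Ω N) z r
  have hv := (vol R0 (show 0 < δ * (R / 2) ^ N by positivity)).trans (measure_mono hs)
  have V0 : 0 < volume B := lt_of_lt_of_le (ENNReal.ofReal_pos.2 (by positivity)) hv
  have V1 : volume B < ⊤ :=
    (measure_mono fun q hq => Ω_ball N hq.1).trans_lt measure_ball_lt_top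
  refine ⟨z, by simpa [z] using mem_exp N (s := -T) (u := 0) (by simpa) (by simp), V0, V1, ?_⟩
  have hm : MeasurableSet {q : ℂ × ℂ | ‖q.1‖ ≤ R} :=
    (isClosed_le (by fun_prop) continuous_const).measurableSet
  have i1 : ∫⁻ w in B, ‖w.1⁻¹‖ₑ ^ p ≤ ENNReal.ofReal (R ^ (-p) * (1 + K)) * volume B := by
    refine le_trans (lintegral_mono (g := fun w => ENNReal.ofReal (R ^ (-p)) +
      {q : ℂ × ℂ | ‖q.1‖ ≤ R}.indicator (fun w => ‖w.1⁻¹‖ₑ ^ p) w) fun w => ?_) ?_
    · by_cases h : w ∈ {q : ℂ × ℂ | ‖q.1‖ ≤ R}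
      · simp only [indicator_of_mem h]; exact le_add_self
      · refine le_trans ?_ le_self_add
        rw [← ofReal_norm, ENNReal.ofReal_rpow_of_nonneg (norm_nonneg _) hp.le, norm_inv,
          Real.rpow_neg R0.le, ← Real.inv_rpow R0.le]
        exact ENNReal.ofReal_le_ofReal (Real.rpow_le_rpow (by positivity)
          (inv_anti₀ R0 (not_le.1 h).le) hp.le)
    · rw [lintegral_add_left measurable_const, setLIntegral_const, lintegral_indicator hm,
        Measure.restrict_restrict hm, mul_add, mul_one, ENNReal.ofReal_add (by positivity)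
        (by positivity), add_mul]
      gcongr
      refine (lintegral_mono_set (inter_subset_inter_right _ fun q hq => hq.1)).trans
        ((inner N hp.le (by linarith [(Nat.cast_nonneg N : (0:ℝ) ≤ N)]) R0).trans
          (le_trans ?_ (mul_le_mul_right hv _)))
      rw [← ENNReal.ofReal_mul (by positivity)]
      refine le_of_eq (congrArg _ ?_)
      have : (4 : ℝ) ^ N = (2 ^ N) ^ 2 := by rw [← pow_mul, mul_comm, pow_mul]; norm_num
      rw [hK, this, div_pow]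
      field_simp
      ring
  refine (mul_le_mul_right i1 _).trans_lt ?_
  rw [mul_comm _ (volume B), ← mul_assoc, ENNReal.div_mul_cancel V0.ne' V1.ne,
    ← ENNReal.ofReal_mul hC.le, ← ofReal_norm, ENNReal.ofReal_rpow_of_nonneg (norm_nonneg _) hp.le]
  have e : ‖z.1⁻¹‖ ^ p = R ^ (-p) * Real.exp (p * T * δ / 2) := by
    simp only [z, norm_inv, Complex.norm_exp, Complex.neg_re, Complex.ofReal_re, hR, ← Real.exp_neg,
      ← Real.exp_mul, ← Real.exp_add]
    congr 1; ring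
  rw [e, ENNReal.ofReal_lt_ofReal_iff (by positivity)]
  have h1 : C * (1 + K) ≤ p * T * δ / 2 := by
    rw [hT]; field_simp; nlinarith
  have h2 := Real.add_one_le_exp (p * T * δ / 2)
  have h3 : 0 < R ^ (-p) := by positivity
  nlinarith

end Pool.Agent.Results.MP_8e2100_an.Counter
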